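import Pool.Agent.Helper63.HH.Super
import Pool.Agent.Helper63.HH.Core

/-!
# PH: few edges (MP_0dbcb7_co)

A graph of large girth, realised by short walks of a planar-like graph inside pairwise disjoint
clusters, has few edges.
-/

namespace Pool.Agent.Helper71.PH

open Pool.Agent.Helper83.OP Set
open Pool.Agent.Helper63.UP (gb)
open Pool.Agent.Helper63.HH (core)

section Growth

variable {V : Type} [Finite V] {H : SimpleGraph V} {N : Set V} {ρ : ℕ}

private theorem gr_sum (H : SimpleGraph V) (q : ℕ) (C : Set V) (h3 : ∀ v ∈ C, q ≤ deg H v) :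
    q * C.ncard ≤ {e : V × V | e.1 ∈ C ∧ H.Adj e.1 e.2}.ncard := by
  classical
  have := Fintype.ofFinite V
  have h1 : {e : V × V | e.1 ∈ C ∧ H.Adj e.1 e.2}.ncard =
      (Finset.univ.filter fun e : V × V => e.1 ∈ C ∧ H.Adj e.1 e.2).card := by
    rw [← Set.ncard_coe_finset]
    congr 1
    ext e
    simp
  have h2 : C.ncard = (Finset.univ.filter fun v : V => v ∈ C).card := by
    rw [← Set.ncard_coe_finset]
    congr 1
    ext e
    simp
  rw [h1, h2, Finset.card_eq_sum_card_fiberwise (f := Prod.fst)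
    (t := Finset.univ.filter fun v : V => v ∈ C)]
  · rw [mul_comm, ← smul_eq_mul]
    apply Finset.card_nsmul_le_sum
    intro v hv
    have hv' : v ∈ C := by simpa using hv
    refine (h3 v hv').trans (le_of_eq ?_)
    rw [deg, ← Set.ncard_coe_finset]
    refine Set.ncard_congr (fun w _ => (v, w)) ?_ ?_ ?_
    · intro w hw
      simp only [Finset.coe_filter, Finset.mem_filter, Finset.mem_univ, true_and,
        Set.mem_ofPred_eq]
      exact ⟨⟨hv', hw⟩, trivial⟩
    · intro a b _ _ hab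
      exact (Prod.mk.inj hab).2
    · rintro ⟨a, b⟩ hab
      simp only [Finset.coe_filter, Finset.mem_univ, true_and, Finset.mem_filter,
        Set.mem_ofPred_eq] at hab
      obtain ⟨⟨_, h2⟩, rfl⟩ := hab
      exact ⟨b, h2, rfl⟩
  · intro e he
    simp only [Finset.coe_filter, Finset.mem_univ, true_and, Set.mem_ofPred_eq] at he ⊢
    exact he.1

/-- the vertices of the cluster of `s` at depth `i` -/
private def lev (K : Clus H N ρ) (s : V) (i : ℕ) : Set V := {v | v ∈ K.cl s ∧ K.d v = i}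

private theorem gr_step (K : Clus H N ρ) (hK : K.Tidy) (s : V) (q : ℕ)
    (hN : ∀ v w, H.Adj v w → w ∈ N)
    (h3 : ∀ v ∈ K.cl s, q ≤ deg H v) (i : ℕ) (hi : i < ρ) :
    q * (lev K s i).ncard ≤ (lev K s (i + 1)).ncard + (lev K s i).ncard := by
  refine (gr_sum H q (lev K s i) (fun v hv => h3 v hv.1)).trans ?_
  have hsub : {e : V × V | e.1 ∈ lev K s i ∧ H.Adj e.1 e.2} ⊆
      (fun w => (K.par w, w)) '' lev K s (i + 1) ∪
        (fun v => (v, K.par v)) '' lev K s i := by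
    rintro ⟨v, w⟩ ⟨⟨⟨hvN, hvs⟩, hvd⟩, hvw⟩
    simp only at hvN hvs hvd hvw
    have hw : w ∈ N := hN v w hvw
    have hws : K.ctr w = s := by
      rw [← hvs]
      exact K.near v hvN w hw hvw (by omega)
    rcases hK.tree v hvN w hw hvw (hvs.trans hws.symm) with ⟨h1, h2⟩ | ⟨h1, h2⟩
    · right
      exact ⟨v, ⟨⟨hvN, hvs⟩, hvd⟩, by simp only [h2]⟩
    · left
      have h4 := K.par_d w hw h1
      rw [← h2] at h4
      exact ⟨w, ⟨⟨hw, hws⟩, by omega⟩, by simp only [h2]⟩
  refine (Set.ncard_le_ncard hsub (Set.toFinite _)).trans ?_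
  refine (Set.ncard_union_le _ _).trans ?_
  exact Nat.add_le_add (Set.ncard_image_le (Set.toFinite _)) (Set.ncard_image_le (Set.toFinite _))

private theorem grow (K : Clus H N ρ) (hK : K.Tidy) (s : V) (hs : s ∈ K.Ctr) (q : ℕ)
    (hN : ∀ v w, H.Adj v w → w ∈ N)
    (h3 : ∀ v ∈ K.cl s, q + 1 ≤ deg H v) :
    q ^ ρ ≤ (K.cl s).ncard := by
  have hss : s ∈ K.cl s := ⟨hs.1, hs.2⟩
  have key : ∀ i, i ≤ ρ → q ^ i ≤ (lev K s i).ncard := by
    intro i
    induction i with
    | zero =>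
      intro _
      have hds : K.d s = 0 := by
        have := K.d_ctr s hs.1
        rwa [hs.2] at this
      rw [pow_zero]
      exact (Set.ncard_pos (Set.toFinite _)).mpr ⟨s, hss, hds⟩
    | succ i ih =>
      intro hi
      have h1 := gr_step K hK s (q + 1) hN h3 i (by omega)
      have h2 := ih (by omega)
      rw [add_mul, one_mul] at h1
      rw [pow_succ, mul_comm]
      have h4 := Nat.mul_le_mul_left q h2
      omega
  refine (key ρ le_rfl).trans ?_
  exact Set.ncard_le_ncard (fun v hv => hv.1) (Set.toFinite _)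

end Growth

section Main

variable {V : Type}

/-- lifting a walk of the graph `Γ` whose edges are realised by walks of `H` -/
private theorem lift {H Γ : SimpleGraph V} (cl : V → V) (L0 : ℕ)
    (hreal : ∀ s t, Γ.Adj s t → ∃ w : H.Walk s t, w.length ≤ L0 ∧
      ∀ x ∈ w.support, cl x = s ∨ cl x = t) {s t : V} (p : Γ.Walk s t) (hp : 0 < p.length) :
    ∃ w : H.Walk s t, w.length ≤ p.length * L0 ∧ ∀ x ∈ w.support, cl x ∈ p.support := by
  induction p with
  | nil => simp at hp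
  | @cons s c t h p ih =>
    obtain ⟨w1, h1, h2⟩ := hreal s c h
    rcases Nat.eq_zero_or_pos p.length with h0 | h0
    · obtain rfl := SimpleGraph.Walk.eq_of_length_eq_zero h0
      refine ⟨w1, ?_, ?_⟩
      · rw [SimpleGraph.Walk.length_cons, h0]
        omega
      · intro x hx
        rw [SimpleGraph.Walk.support_cons, List.mem_cons]
        rcases h2 x hx with h3 | h3
        · exact Or.inl h3
        · right
          rw [h3]
          exact p.start_mem_support
    · obtain ⟨w2, h3, h4⟩ := ih h0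
      refine ⟨w1.append w2, ?_, ?_⟩
      · rw [SimpleGraph.Walk.length_append, SimpleGraph.Walk.length_cons, add_mul, one_mul]
        omega
      · intro x hx
        rw [SimpleGraph.Walk.mem_support_append_iff] at hx
        rw [SimpleGraph.Walk.support_cons, List.mem_cons]
        rcases hx with hx | hx
        · rcases h2 x hx with h5 | h5
          · exact Or.inl h5
          · right
            rw [h5]
            exact p.start_mem_support
        · exact Or.inr (h4 x hx)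

/-- A graph `Γ` without short cycles, realised by short walks of `H` inside disjoint clusters,
has no subgraph of minimum degree `> q`. -/
theorem fe_core [Finite V] (ρ L0 : ℕ)
    (H : SimpleGraph V) (X : Sym2 V → Sym2 V → Prop)
    (hX : ∀ f ∈ H.edgeSet, {f' | f' ∈ H.edgeSet ∧ X f f'}.ncard ≤ 1) (hP : PlanarLike H X)
    (Γ : SimpleGraph V) (cl : V → V)
    (hreal : ∀ s t, Γ.Adj s t → ∃ w : H.Walk s t, w.length ≤ L0 ∧
      ∀ x ∈ w.support, cl x = s ∨ cl x = t)
    (hg : ∀ v (c : Γ.Walk v v), c.IsCycle → 8 * ρ + 2 < c.length)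
    (W : Set V) (hWne : W.Nonempty) (q : ℕ) (hq2 : 2 ≤ q)
    (hq : ∀ s ∈ W, q + 1 ≤ {t | t ∈ W ∧ Γ.Adj s t}.ncard) :
    q ^ ρ ≤ 24 * (4 * ((4 * ρ + 1) * L0) + 1) := by
  classical
  let Q1 : SimpleGraph V :=
    { Adj := fun s t => s ∈ W ∧ t ∈ W ∧ Γ.Adj s t
      symm := ⟨fun s t ⟨h1, h2, h3⟩ => ⟨h2, h1, h3.symm⟩⟩
      loopless := ⟨fun s h => h.2.2.ne rfl⟩ }
  have hQ1 : Q1 ≤ Γ := fun s t h => h.2.2
  have hNadj : ∀ v w, Q1.Adj v w → w ∈ W := fun v w h => h.2.1
  have hNadj' : ∀ v w, Q1.Adj v w → v ∈ W := fun v w h => h.1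
  obtain ⟨K2⟩ := exists_clus Q1 W ρ
  have hT : K2.Tidy := clus_tidy K2 (fun u c hc hl => by
    have h1 := hg u (c.mapLe hQ1) (hc.mapLe hQ1)
    rw [SimpleGraph.Walk.length_mapLe] at h1
    omega)
  have hdegQ : ∀ s ∈ W, q + 1 ≤ deg Q1 s := by
    intro s hs
    refine (hq s hs).trans (le_of_eq ?_)
    unfold deg
    congr 1
    ext t
    exact ⟨fun h => ⟨hs, h.1, h.2⟩, fun h => ⟨h.2.1, h.2.2⟩⟩
  set p := K2.Ctr.ncard with hp
  have hppos : 1 ≤ p := by
    obtain ⟨x0, hx0⟩ := hWne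
    refine (Set.ncard_pos (Set.toFinite _)).2 ⟨K2.ctr x0, ?_, ?_⟩
    · exact K2.ctr_mem _ hx0
    · exact K2.ctr_ctr _ hx0
  set B2 : Set (V × V) :=
    {e : V × V | e.1 ∈ W ∧ e.2 ∈ W ∧ Q1.Adj e.1 e.2 ∧ K2.ctr e.1 ≠ K2.ctr e.2} with hB2
  have := Fintype.ofFinite V
  -- lower bound
  have hlow : q ^ ρ * p ≤ B2.ncard := by
    have h1 : p = K2.Ctr.toFinset.card := Set.ncard_eq_toFinset_card' _
    rw [ncard_fiber B2 K2.Ctr.toFinset (fun e : V × V => K2.ctr e.1) (fun e he => by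
      rw [Set.mem_toFinset]
      exact ⟨K2.ctr_mem _ he.1, K2.ctr_ctr _ he.1⟩), h1, mul_comm, ← smul_eq_mul,
      ← Finset.sum_const]
    refine Finset.sum_le_sum fun s hs => ?_
    rw [Set.mem_toFinset] at hs
    have h2 := grow K2 hT s hs q hNadj (fun v hv => hdegQ v hv.1)
    have h3 := out_ge K2 hT s s (fun v hv _ _ => by have := hdegQ v hv; omega)
      (fun v hv => by have := hdegQ v hv; omega) s hs
    have h4 : (K2.hOut s).ncard = 0 := by
      rw [Set.ncard_eq_zero (Set.toFinite _)]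
      ext e
      simp only [Set.mem_empty_iff_false, iff_false]
      rintro ⟨_, _, h5, h6⟩
      exact h5 (hNadj _ _ h6)
    have h5 : ({s, s} ∩ K2.cl s : Set V).ncard ≤ 1 := by
      refine (Set.ncard_le_ncard Set.inter_subset_left (Set.toFinite _)).trans ?_
      simp
    have h6 : (K2.cOut s).ncard ≤ {x | x ∈ B2 ∧ K2.ctr x.1 = s}.ncard := by
      refine Set.ncard_le_ncard ?_ (Set.toFinite _)
      rintro e ⟨a1, a2, a3, a4, a5⟩
      exact ⟨⟨a1, a2, a3, by rw [a4]; exact fun h => a5 h.symm⟩, a4⟩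
    omega
  -- the graph of the super cells
  let Q : SimpleGraph V :=
    { Adj := fun s t => s ≠ t ∧
        ∃ a b, Q1.Adj a b ∧ K2.ctr a = s ∧ K2.ctr b = t
      symm := ⟨fun s t ⟨h1, a, b, h4, h5, h6⟩ => ⟨h1.symm, b, a, h4.symm, h6, h5⟩⟩
      loopless := ⟨fun s h => h.1 rfl⟩ }
  have hgb := gb H Q X 1 ((4 * ρ + 1) * L0) hX hP
    (fun x => K2.ctr (cl x)) K2.Ctr (by
      rintro s t ⟨h1, a, b, h4, rfl, rfl⟩
      have ha : a ∈ W := hNadj' _ _ h4
      have hb : b ∈ W := hNadj _ _ h4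
      refine ⟨⟨K2.ctr_mem _ ha, K2.ctr_ctr _ ha⟩, ⟨K2.ctr_mem _ hb, K2.ctr_ctr _ hb⟩, ?_⟩
      obtain ⟨p1, c1, d1, -⟩ := clus_path K2 a ha
      obtain ⟨p2, c2, d2, -⟩ := clus_path K2 b hb
      obtain ⟨q', hq1, hq2⟩ := lift cl L0 hreal
        ((p1.append (SimpleGraph.Walk.cons h4 p2.reverse)).mapLe hQ1) (by
          rw [SimpleGraph.Walk.length_mapLe, SimpleGraph.Walk.length_append,
            SimpleGraph.Walk.length_cons]
          omega)
      refine ⟨q', ?_, ?_⟩
      · refine hq1.trans (Nat.mul_le_mul_right _ ?_)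
        rw [SimpleGraph.Walk.length_mapLe, SimpleGraph.Walk.length_append,
          SimpleGraph.Walk.length_cons, SimpleGraph.Walk.length_reverse, c1, c2]
        have := K2.d_le a ha
        have := K2.d_le b hb
        omega
      · intro x hx
        have h5 := hq2 x hx
        rw [SimpleGraph.Walk.support_mapLe_eq_support, SimpleGraph.Walk.mem_support_append_iff,
          SimpleGraph.Walk.support_cons, List.mem_cons,
          SimpleGraph.Walk.support_reverse, List.mem_reverse] at h5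
        rcases h5 with h5 | h5 | h5
        · exact Or.inl (d1 _ h5).2
        · exact Or.inl (by rw [h5])
        · exact Or.inr (d2 _ h5).2)
  have hup : B2.ncard ≤ {e : V × V | Q.Adj e.1 e.2}.ncard := by
    have hinj : Set.InjOn (fun e : V × V => (K2.ctr e.1, K2.ctr e.2)) B2 := by
      rintro ⟨v, w⟩ ⟨h1, h2, h3, h4⟩ ⟨v', w'⟩ ⟨h1', h2', h3', h4'⟩ h
      simp only [Prod.mk.injEq] at h
      obtain ⟨e1, e2⟩ := hT.two v h1 w h2 v' h1' w' h2' h3 h3' h.1 h.2 h4
      rw [e1, e2]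
    have h1 : ((fun e : V × V => (K2.ctr e.1, K2.ctr e.2)) '' B2) ⊆
        {e : V × V | Q.Adj e.1 e.2} := by
      rintro _ ⟨⟨v, w⟩, ⟨h1, h2, h3, h4⟩, rfl⟩
      exact ⟨h4, v, w, h3, rfl, rfl⟩
    have h2 := Set.ncard_le_ncard h1 (Set.toFinite _)
    rwa [hinj.ncard_image] at h2
  have hfin : q ^ ρ * p ≤ (24 * (4 * 1 * ((4 * ρ + 1) * L0) + 1)) * p :=
    hlow.trans (hup.trans hgb)
  have hfin2 := Nat.le_of_mul_le_mul_right hfin hppos
  rwa [mul_one] at hfin2

/-- **Few edges** -/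
theorem fe [Finite V] (ρ L0 q : ℕ)
    (H : SimpleGraph V) (X : Sym2 V → Sym2 V → Prop)
    (hX : ∀ f ∈ H.edgeSet, {f' | f' ∈ H.edgeSet ∧ X f f'}.ncard ≤ 1) (hP : PlanarLike H X)
    (Γ : SimpleGraph V) (S : Set V) (hS : ∀ s t, Γ.Adj s t → s ∈ S) (cl : V → V)
    (hreal : ∀ s t, Γ.Adj s t → ∃ w : H.Walk s t, w.length ≤ L0 ∧
      ∀ x ∈ w.support, cl x = s ∨ cl x = t)
    (hg : ∀ v (c : Γ.Walk v v), c.IsCycle → 8 * ρ + 2 < c.length)
    (hq2 : 2 ≤ q) (hq : 24 * (4 * ((4 * ρ + 1) * L0) + 1) < q ^ ρ) :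
    {e : V × V | Γ.Adj e.1 e.2}.ncard ≤ 2 * q * S.ncard := by
  by_contra hcon
  push Not at hcon
  have h1 : {e : V × V | Γ.Adj e.1 e.2} ⊆ {e : V × V | e.1 ∈ S ∧ e.2 ∈ S ∧ Γ.Adj e.1 e.2} :=
    fun e he => ⟨hS _ _ he, hS _ _ he.symm, he⟩
  have h2 := Set.ncard_le_ncard h1 (Set.toFinite _)
  obtain ⟨W, -, hWne, hdeg⟩ := core Γ q S.ncard S rfl (by omega)
  have h3 := fe_core ρ L0 H X hX hP Γ cl hreal hg W hWne q hq2 hdeg
  omega

end Main

end Pool.Agent.Helper71.PH
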