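import Pool.Agent.Helper95.HH.RingSum
import Pool.Agent.Helper83.HR.Hub
import Pool.Agent.Helper71.PV.SC

/-!
# PH: closure and surgery with hubs, explicit polynomial constant (MP_0dbcb7_co)

Copies of `load_abs`, `surg_gen`, `surg_hub` (Helper83/HR) and `surg_close_hub` (Helper95/HH) with the constant of
`Helper71.PV.closure_x`; `surg_close_hub_p` is the polynomial form.
-/

set_option autoImplicit false

open Set
open Pool.Agent.Helper83.OP Pool.Agent.Helper83.LN Pool.Agent.Helper93.UP Pool.Agent.Helper83.HR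
open Pool.Agent.Helper95.HH

namespace Pool.Agent.Helper71.PH

/-- the constant of `load_abs` -/
def laK (C K1 : ℕ) : ℕ := (C + Pool.Agent.Helper71.PV.clK C (2 * K1)) +
  (Pool.Agent.Helper71.PV.clK C (2 * K1) * (K1 + 1) + (K1 + C))

/-- the constant of `surg_close_hub` -/
def schK (C K1 : ℕ) : ℕ :=
  laK (5 * (C + 4) + 20) (2 * (C + 6) * (K1 + 1) + 8 * K1 + 2 + 36 * (C + 4) + 120)

open Classical in
theorem load_abs_x (C K1 K : ℕ) (hKd : K = laK C K1) : ∀ (J I T : Type) [Finite J] [Fintype T] (src tgt : I → J)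
    (Hb : Set J) (d : J → J → ℕ) (dgn : J → ℕ) (r : ℕ) (S0 : Finset T) (len : T → ℕ)
    (p p' : T → J) (om : T → Set J) (R' : T → Rt J I src tgt)
    (γ : ∀ τ, Geod d dgn (p τ) (p' τ)),
    (∀ x, d x x = 0) → (∀ x y, d x y = d y x) → (∀ x y z, d x z ≤ d x y + d y z) →
    1 ≤ r → (∀ t, dgn t ≤ C * r) → S0.card ≤ C * r →
    (∀ τ, r ≤ len τ) → (∀ τ ∉ S0, len τ ≤ 2 * r) →
    (∀ τ, d (p τ) (p' τ) ≤ K1 * len τ) →
    (∀ j, {τ | τ ∉ S0 ∧ j ∈ om τ}.ncard ≤ dgn j) →
    (∀ τ ∉ S0, ∀ j ∈ om τ, d j (p τ) ≤ K1 * r) →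
    (∀ τ, ∀ t ≤ (R' τ).len, (R' τ).nd t ∉ Hb → t ≤ (γ τ).n ∧ (γ τ).g t = (R' τ).nd t) →
    (∀ τ ∉ S0, ∑ τ' : T, (if τ' = τ ∨ τ' ∈ S0 then 0 else (om τ ∩ om τ').ncard) ≤
      C * len τ) →
    ∃ S : Finset T, S0 ⊆ S ∧ ∀ R : T → Rt J I src tgt,
      (∀ τ ∈ S, R τ = R' τ) →
      (∀ τ, τ ∉ S → ∀ t ≤ (R τ).len, (R τ).nd t ∉ Hb → (R τ).nd t ∈ om τ) →
      ∀ τ, ∑ τ' : T, (if τ' = τ then 0 else multH R (S : Set T) Hb τ τ') ≤ K * len τ := by
  obtain ⟨Kc, hKcd⟩ : ∃ Kc, Kc = Pool.Agent.Helper71.PV.clK C (2 * K1) := ⟨_, rfl⟩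
  have hKc := Pool.Agent.Helper71.PV.closure_x C (2 * K1) Kc hKcd
  unfold laK at hKd
  rw [← hKcd] at hKd
  clear hKcd
  subst hKd
  intro J I T _ _ src tgt Hb d dgn r S0 len p p' om R' γ hself hsymm htri hr hdgn hS0 hlen hlen2
    hdist hcount hnear hγ hoo
  obtain ⟨S, hS, hout, hin⟩ := hKc J T d dgn r p p' om S0 γ hself hsymm htri hr hdgn hS0
    (by
      intro τ hτ
      refine (hdist τ).trans ?_
      have h1 := Nat.mul_le_mul_left K1 (hlen2 τ hτ)
      nlinarith)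
    hcount
    (by
      intro τ hτ j hj
      refine (hnear τ hτ j hj).trans ?_
      nlinarith)
  refine ⟨S, hS, ?_⟩
  intro R hR hRold τ
  have hrl := hlen τ
  have hhits : ∀ τ X, (γ τ).hits X = {i | i ≤ (γ τ).n ∧ (γ τ).g i ∈ X}.ncard := fun _ _ => rfl
  by_cases hτ : τ ∈ S
  · -- a new thread
    have h1 : ∀ τ' ∈ (Finset.univ : Finset T),
        (if τ' = τ then 0 else multH R (S : Set T) Hb τ τ') ≤
        (if τ' ∈ S ∧ ((γ τ').nodes ∩ (γ τ).nodes).Nonempty then 1 else 0) +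
        (if τ' ∈ Sᶜ then (γ τ).hits (om τ') else 0) := by
      intro τ' _
      by_cases he : τ' = τ
      · rw [if_pos he]
        exact Nat.zero_le _
      · rw [if_neg he]
        by_cases hτ' : τ' ∈ S
        · have h2 : multH R (S : Set T) Hb τ τ' = min 1 (common (R τ) (R τ') \ Hb).ncard := by
            rw [multH, if_pos ⟨Finset.mem_coe.2 hτ, Finset.mem_coe.2 hτ'⟩]
          rw [h2]
          by_cases h3 : ((γ τ').nodes ∩ (γ τ).nodes).Nonempty
          · rw [if_pos ⟨hτ', h3⟩]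
            exact (Nat.min_le_left _ _).trans (Nat.le_add_right _ _)
          · have h4 : common (R τ) (R τ') \ Hb = ∅ := by
              rw [Set.eq_empty_iff_forall_notMem]
              rintro j ⟨⟨⟨s, hs, hj⟩, t, ht, hj'⟩, hjb⟩
              apply h3
              rw [hR τ hτ] at hs hj
              rw [hR τ' hτ'] at ht hj'
              obtain ⟨g1, g2⟩ := hγ τ s hs (by rw [hj]; exact hjb)
              obtain ⟨g3, g4⟩ := hγ τ' t ht (by rw [hj']; exact hjb)
              exact ⟨j, ⟨t, g3, (g4.trans hj').symm⟩, ⟨s, g1, (g2.trans hj).symm⟩⟩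
            rw [h4, Set.ncard_empty]
            exact Nat.zero_le _
        · have h2 : multH R (S : Set T) Hb τ τ' = (common (R τ) (R τ') \ Hb).ncard := by
            rw [multH, if_neg (fun h => hτ' (Finset.mem_coe.1 h.2))]
          rw [h2, if_pos (Finset.mem_compl.2 hτ'), common_comm']
          refine le_trans ?_ (Nat.le_add_left _ _)
          rw [hhits]
          refine common_hits (R τ') (R τ) Hb (om τ') (γ τ).n (γ τ).g (hRold τ' hτ') ?_
          rw [hR τ hτ]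
          exact hγ τ
    refine (Finset.sum_le_sum h1).trans ?_
    rw [Finset.sum_add_distrib]
    obtain ⟨_, hmeet, hold'⟩ := hin γ
    have h6 : ∑ τ' : T, (if τ' ∈ S ∧ ((γ τ').nodes ∩ (γ τ).nodes).Nonempty then 1 else 0) ≤
        Kc * (K1 * len τ + r) := by
      rw [← Finset.card_filter]
      have h7 := hmeet τ hτ
      have h8 : ((Finset.univ : Finset T).filter
          (fun τ' => τ' ∈ S ∧ ((γ τ').nodes ∩ (γ τ).nodes).Nonempty)).card =
          {q' | q' ∈ S ∧ ((γ q').nodes ∩ (γ τ).nodes).Nonempty}.ncard := by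
        rw [← Set.ncard_coe_finset]
        congr 1
        ext q
        simp
      rw [h8]
      refine h7.trans (Nat.mul_le_mul_left _ ?_)
      exact Nat.add_le_add_right (hdist τ) _
    have h9 : ∑ τ' : T, (if τ' ∈ Sᶜ then (γ τ).hits (om τ') else 0) ≤
        K1 * len τ + C * r := by
      rw [← Finset.sum_filter]
      have h10 : (Finset.univ : Finset T).filter (fun τ' => τ' ∈ Sᶜ) = Sᶜ := by
        ext q
        simp
      rw [h10]
      exact (hold' τ hτ).trans (Nat.add_le_add_right (hdist τ) _)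
    have h11 : Kc * (K1 * len τ + r) ≤ Kc * (K1 + 1) * len τ := by
      rw [Nat.mul_assoc]
      apply Nat.mul_le_mul_left
      nlinarith
    have h12 : C * r ≤ C * len τ := Nat.mul_le_mul_left _ hrl
    calc _ ≤ Kc * (K1 + 1) * len τ + (K1 * len τ + C * len τ) := by omega
      _ = (Kc * (K1 + 1) + (K1 + C)) * len τ := by ring
      _ ≤ _ := Nat.mul_le_mul_right _ (Nat.le_add_left _ _)
  · -- an old thread
    have hτ0 : τ ∉ S0 := fun h => hτ (hS h)
    have h1 : ∀ τ' ∈ (Finset.univ : Finset T),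
        (if τ' = τ then 0 else multH R (S : Set T) Hb τ τ') ≤
        (if τ' = τ ∨ τ' ∈ S0 then 0 else (om τ ∩ om τ').ncard) +
        (if τ' ∈ S then (γ τ').hits (om τ) else 0) := by
      intro τ' _
      by_cases he : τ' = τ
      · rw [if_pos he]
        exact Nat.zero_le _
      · rw [if_neg he]
        have h2 : multH R (S : Set T) Hb τ τ' = (common (R τ) (R τ') \ Hb).ncard := by
          rw [multH, if_neg (fun h => hτ (Finset.mem_coe.1 h.1))]
        rw [h2]
        by_cases hτ' : τ' ∈ S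
        · rw [if_pos hτ', hhits]
          refine le_trans ?_ (Nat.le_add_left _ _)
          refine common_hits (R τ) (R τ') Hb (om τ) (γ τ').n (γ τ').g (hRold τ hτ) ?_
          rw [hR τ' hτ']
          exact hγ τ'
        · have hτ0' : τ' ∉ S0 := fun h => hτ' (hS h)
          rw [if_neg (by
            rintro (h | h)
            · exact he h
            · exact hτ0' h)]
          refine le_trans ?_ (Nat.le_add_right _ _)
          apply Set.ncard_le_ncard _ (Set.toFinite _)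
          rintro j ⟨⟨⟨s, hs, hj⟩, t, ht, hj'⟩, hjb⟩
          refine ⟨?_, ?_⟩
          · rw [← hj]
            exact hRold τ hτ s hs (by rw [hj]; exact hjb)
          · rw [← hj']
            exact hRold τ' hτ' t ht (by rw [hj']; exact hjb)
    refine (Finset.sum_le_sum h1).trans ?_
    rw [Finset.sum_add_distrib]
    have h6 := hoo τ hτ0
    have h7 : ∑ τ' : T, (if τ' ∈ S then (γ τ').hits (om τ) else 0) ≤ Kc * r := by
      rw [← Finset.sum_filter]
      have h10 : (Finset.univ : Finset T).filter (fun τ' => τ' ∈ S) = S := by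
        ext q
        simp
      rw [h10]
      exact hout τ hτ
    have h13 : Kc * r ≤ Kc * len τ := Nat.mul_le_mul_left _ hrl
    calc _ ≤ C * len τ + Kc * len τ := by omega
      _ = (C + Kc) * len τ := by ring
      _ ≤ _ := Nat.mul_le_mul_right _ (Nat.le_add_right _ _)


theorem surg_gen_x (C K1 K : ℕ) (hKd : K = laK (5 * C + 20) (K1 + 36 * C + 120)) : ∀ (V V' T : Type) [Finite V] [Finite V'] [Fintype T]
    (G : SimpleGraph V) (R : SimpleGraph V') (U : Set V') (Th : Threads G T) (pl : V → V')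
    (z : T → ℕ → V') (zl : T → ℕ) (r : ℕ) (S0 : Finset T),
    KPl 1 R → R.edgeSet.Nonempty →
    (∀ a ∈ U, ∀ v, R.Adj a v → deg R v ≤ 4) →
    (∀ v, v ∉ U → deg R v ≤ C * r) → 1 ≤ r → S0.card ≤ C * r →
    (∀ τ, r ≤ Th.len τ) → (∀ τ, τ ∉ S0 → Th.len τ ≤ 2 * r) →
    (∀ u u', pl u ∈ U → pl u = pl u' → u = u') →
    OldSys R U (S0 : Set T) z zl →
    (∀ τ, τ ∉ S0 → z τ 0 = pl (Th.x τ 0) ∧ z τ (zl τ) = pl (Th.x τ (Th.len τ)) ∧
      zl τ ≤ Th.len τ + 1) →
    (∀ τ, ∃ w, (w = pl (Th.x τ (Th.len τ)) ∨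
        (pl (Th.x τ (Th.len τ)) ∈ U ∧ R.Adj w (pl (Th.x τ (Th.len τ))))) ∧
      ∃ p : R.Walk (pl (Th.x τ 0)) w, (∀ x ∈ p.support, x ∉ U) ∧
        2 * (p.support.map (deg R)).sum + 8 * p.length ≤ K1 * Th.len τ) →
    KPl K G := by
  classical
  have hK := load_abs_x (5 * C + 20) (K1 + 36 * C + 120) K hKd
  clear hKd
  intro V V' T _ _ _ G R U Th pl z zl r S0 hR hne hdoor hdeg hr hS0 hlen hlen2 hone hO hz hwalk
  obtain ⟨pos, γ0, hd, h1⟩ := hR
  obtain ⟨Z, ⟨P⟩⟩ := planarize R pos γ0 hd (fun e he => by simpa using h1 e he)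
  have hJ : Finite Z.J := Z.fin
  have hJF : Fintype Z.J := Fintype.ofFinite _
  obtain ⟨L⟩ := exists_layout (plz_ne Z) P
  have hIne : Nonempty (R.edgeSet × Bool) := by
    obtain ⟨e, he⟩ := hne
    exact ⟨(⟨e, he⟩, true)⟩
  -- the price of a hub
  set M : ℕ := 1 + ∑ τ : T, (K1 * Th.len τ + 12) with hM
  have hM1 : ∀ τ, K1 * Th.len τ + 12 < M := by
    intro τ
    have := Finset.single_le_sum (f := fun τ : T => K1 * Th.len τ + 12) (fun _ _ => Nat.zero_le _)
      (Finset.mem_univ τ)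
    have h2 : K1 * Th.len τ + 12 ≤ ∑ τ : T, (K1 * Th.len τ + 12) := this
    omega
  obtain ⟨Gam, hGam, hsurg⟩ := surgeryH (plz_ne Z) L (hc Z U M) (hub Z U)
  obtain ⟨B, hB⟩ := exists_B (src := Z.src) (tgt := Z.tgt) (hc Z U M)
  -- the walks
  have hw0 : ∀ τ, pl (Th.x τ 0) ∉ U := by
    intro τ
    obtain ⟨w, -, p, hp, -⟩ := hwalk τ
    exact hp _ p.start_mem_support
  have hwk : ∀ τ, ∃ l, Wk Z.src Z.tgt (Z.vn (pl (Th.x τ 0))) (Z.vn (pl (Th.x τ (Th.len τ)))) l ∧
      ((pl (Th.x τ (Th.len τ)) ∉ U ∧ wcost (hc Z U M) l ≤ K1 * Th.len τ) ∨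
        (pl (Th.x τ (Th.len τ)) ∈ U ∧ wcost (hc Z U M) l ≤ K1 * Th.len τ + 12 + M)) := by
    intro τ
    obtain ⟨w, hw, p, hp, hc'⟩ := hwalk τ
    obtain ⟨l, hl, hcl⟩ := wk_walkH Z U M p hp
    rcases hw with hw | ⟨hwU, hadj⟩
    · subst hw
      exact ⟨l, hl, Or.inl ⟨hp _ p.end_mem_support, by omega⟩⟩
    · obtain ⟨l', hl', hcl'⟩ := wk_stepH Z U M hadj (hp _ p.end_mem_support)
      refine ⟨l ++ l', wk_append hl hl', Or.inr ⟨hwU, ?_⟩⟩
      rw [wcost_append]
      rw [hw_hub (vn_hub.2 hwU)] at hcl'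
      have h4 := (wt_vn Z w).trans (hdoor _ hwU w hadj.symm)
      omega
  set R' : T → Rt Z.J (R.edgeSet × Bool) Z.src Z.tgt := fun τ =>
    Gam (Z.vn (pl (Th.x τ 0))) (Z.vn (pl (Th.x τ (Th.len τ)))) with hR'
  have hfrom : ∀ τ, (R' τ).From (Z.vn (pl (Th.x τ 0))) (Z.vn (pl (Th.x τ (Th.len τ)))) := by
    intro τ
    obtain ⟨l, hl, -⟩ := hwk τ
    exact (hGam _ _ ⟨l, hl⟩).1
  have hgeo : ∀ τ, IsGeo (hc Z U M) (R' τ) := by
    intro τ
    obtain ⟨l, hl, -⟩ := hwk τ
    exact (hGam _ _ ⟨l, hl⟩).2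
  have hcost : ∀ τ, (pl (Th.x τ (Th.len τ)) ∉ U ∧ (R' τ).cost (hc Z U M) ≤ K1 * Th.len τ) ∨
      (pl (Th.x τ (Th.len τ)) ∈ U ∧ (R' τ).cost (hc Z U M) ≤ K1 * Th.len τ + 12 + M) := by
    intro τ
    obtain ⟨l, hl, h⟩ := hwk τ
    have h2 := hgeo τ l (by rw [(hfrom τ).1, (hfrom τ).2]; exact hl)
    rcases h with ⟨h3, h4⟩ | ⟨h3, h4⟩
    · exact Or.inl ⟨h3, h2.trans h4⟩
    · exact Or.inr ⟨h3, h2.trans h4⟩
  have hn0 : ∀ τ, (R' τ).nd 0 ∉ hub Z U := by
    intro τ h
    rw [(hfrom τ).1] at h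
    exact hw0 τ (vn_hub.1 h)
  -- hubs on the new routes
  have hhubs : ∀ τ, ∀ t ≤ (R' τ).len, (R' τ).nd t ∈ hub Z U →
      t = (R' τ).len ∧ pl (Th.x τ (Th.len τ)) ∈ U := by
    intro τ t ht h
    rcases hcost τ with ⟨h3, h4⟩ | ⟨h3, h4⟩
    · exact absurd h (hub_free (R' τ) (hn0 τ) (lt_of_le_of_lt h4 (by have := hM1 τ; omega)) ht)
    · refine ⟨hub_end (M := M) (R' τ) (hn0 τ) ?_ ?_ ht h, h3⟩
      · rw [(hfrom τ).2]
        exact vn_hub.2 h3
      · have := hM1 τ
        omega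
  -- truncation
  set m : T → ℕ := fun τ => if pl (Th.x τ (Th.len τ)) ∈ U then (R' τ).len - 1 else (R' τ).len
    with hm
  have hmle : ∀ τ, m τ ≤ (R' τ).len := by
    intro τ
    simp only [hm]
    split_ifs <;> omega
  set γ : ∀ τ, Geod (xD Z.src Z.tgt (hc Z U M) B) (dw Z U) (Z.vn (pl (Th.x τ 0)))
      ((R' τ).nd (m τ)) := fun τ => geodTr B (dw Z U) (dw_le Z U M) (R' τ) (hgeo τ) (m τ) (hmle τ)
        (hfrom τ).1 with hγ
  have hdist : ∀ τ, xD Z.src Z.tgt (hc Z U M) B (Z.vn (pl (Th.x τ 0))) ((R' τ).nd (m τ)) ≤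
      (K1 + 36 * C + 120) * Th.len τ := by
    intro τ
    have h2 := (γ τ).dist 0 (γ τ).n (Nat.zero_le _) le_rfl
    have h3 : (γ τ).s (γ τ).n = ∑ k ∈ Finset.range (m τ), hc Z U M ((R' τ).ar k) := rfl
    have h4 : (γ τ).s 0 = 0 := rfl
    have h5 : (γ τ).g 0 = Z.vn (pl (Th.x τ 0)) := (hfrom τ).1
    have h6 : (γ τ).g (γ τ).n = (R' τ).nd (m τ) := rfl
    rw [h5, h6, h3, h4, Nat.sub_zero] at h2
    rw [h2]
    have hlr := hlen τ
    have key : ∑ k ∈ Finset.range (m τ), hc Z U M ((R' τ).ar k) ≤ K1 * Th.len τ + 12 := by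
      rcases hcost τ with ⟨h7, h8⟩ | ⟨h7, h8⟩
      · have h9 : m τ = (R' τ).len := by
          simp only [hm]
          rw [if_neg h7]
        rw [h9]
        exact h8.trans (Nat.le_add_right _ _)
      · have h9 : m τ = (R' τ).len - 1 := by
          simp only [hm]
          rw [if_pos h7]
        have h10 : (R' τ).len ≠ 0 := by
          intro h0
          have h11 := (hfrom τ).2
          rw [h0] at h11
          exact hn0 τ (by rw [h11]; exact vn_hub.2 h7)
        obtain ⟨n, hn⟩ : ∃ n, (R' τ).len = n + 1 := ⟨(R' τ).len - 1, by omega⟩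
        have h11 := hub_arc (M := M) (t := n) (R' τ) (by omega) (by
          rw [← hn, (hfrom τ).2]
          exact vn_hub.2 h7)
        have h12 : (R' τ).cost (hc Z U M) = ∑ k ∈ Finset.range n, hc Z U M ((R' τ).ar k) +
            hc Z U M ((R' τ).ar n) := by
          unfold Rt.cost
          rw [hn, Finset.sum_range_succ]
        have h13 : m τ = n := by omega
        rw [h13]
        omega
    nlinarith
  have hD : ∀ j, j ∉ hub Z U → wt Z j ≤ C * r + 4 := fun j hj =>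
    wt_leH Z U (C * r) hdeg j hj
  have hdw : ∀ j, dw Z U j ≤ (5 * C + 20) * r := by
    intro j
    unfold dw
    split_ifs with h
    · exact Nat.zero_le _
    · have := hD j h
      nlinarith
  obtain ⟨S, hS, hload⟩ := hK Z.J (R.edgeSet × Bool) T Z.src Z.tgt (hub Z U)
    (xD Z.src Z.tgt (hc Z U M) B) (dw Z U) r S0 Th.len (fun τ => Z.vn (pl (Th.x τ 0)))
    (fun τ => (R' τ).nd (m τ)) (fun τ => oldS Z z zl τ \ hub Z U) R' γ
    (xD_self _ _) (xD_symm _ _) (xD_tri _ _ hB) hr hdw (hS0.trans (by nlinarith)) hlen hlen2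
    hdist
    (by
      intro j
      unfold dw
      split_ifs with h
      · refine le_of_eq ?_
        have : {τ | τ ∉ S0 ∧ j ∈ oldS Z z zl τ \ hub Z U} = ∅ := by
          rw [Set.eq_empty_iff_forall_notMem]
          rintro τ ⟨-, -, h'⟩
          exact h' h
        rw [this, Set.ncard_empty]
      · refine le_trans (Set.ncard_le_ncard ?_ (Set.toFinite _)) (old_countS Z hO j)
        rintro τ ⟨h1, h2, -⟩
        exact ⟨fun h => h1 (Finset.mem_coe.1 h), h2⟩)
    (by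
      intro τ hτ j hj
      rw [xD_symm]
      have h2 := old_nearS Z hO M B (C * r + 4) (by omega)
        (fun v hv => (hdeg v hv).trans (by omega)) τ
        (fun h => hτ (Finset.mem_coe.1 h)) j hj
      rw [(hz τ hτ).1] at h2
      refine h2.trans ?_
      have h3 := (hz τ hτ).2.2
      have h4 := hlen2 τ hτ
      nlinarith)
    (by
      intro τ t ht hj
      refine ⟨?_, rfl⟩
      change t ≤ m τ
      simp only [hm]
      split_ifs with h
      · have h2 : t ≠ (R' τ).len := by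
          rintro rfl
          rw [(hfrom τ).2] at hj
          exact hj (vn_hub.2 h)
        omega
      · exact ht)
    (by
      intro τ hτ
      have h2 := old_oldS Z hO (C * r + 4) hD τ (fun h => hτ (Finset.mem_coe.1 h))
      have h3 := (hz τ hτ).2.2
      have h4 := hlen τ
      refine le_trans (le_of_eq ?_) (h2.trans ?_)
      · refine Finset.sum_congr rfl (fun τ' _ => ?_)
        by_cases h5 : τ' = τ ∨ τ' ∈ S0
        · rw [if_pos h5, if_pos (by
            rcases h5 with h5 | h5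
            · exact Or.inl h5
            · exact Or.inr (Finset.mem_coe.2 h5))]
        · rw [if_neg h5, if_neg (by
            rintro (h6 | h6)
            · exact h5 (Or.inl h6)
            · exact h5 (Or.inr (Finset.mem_coe.1 h6)))]
      · nlinarith)
  -- the old routes
  have hold : ∀ τ, ∃ W : Rt Z.J (R.edgeSet × Bool) Z.src Z.tgt,
      W.From (Z.vn (pl (Th.x τ 0))) (Z.vn (pl (Th.x τ (Th.len τ)))) ∧
      (τ ∉ S0 → ∀ t ≤ W.len, W.nd t ∈ oldS Z z zl τ) := by
    intro τ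
    by_cases h : τ ∈ S0
    · exact ⟨R' τ, hfrom τ, fun h' => absurd h h'⟩
    · have h' : τ ∉ (S0 : Set T) := fun h'' => h (Finset.mem_coe.1 h'')
      obtain ⟨W, h4, h5⟩ := old_route Z (z τ) (zl τ) (hO.pos τ h') (hO.adj τ h')
      rw [(hz τ h).1, (hz τ h).2.1] at h4
      refine ⟨W, h4, fun _ t ht => ?_⟩
      exact h5 t ht
  choose W hW1 hW2 using hold
  set Rf : T → Rt Z.J (R.edgeSet × Bool) Z.src Z.tgt := fun τ => if τ ∈ S then R' τ else W τ
    with hRf
  have hRin : ∀ τ ∈ S, Rf τ = R' τ := fun τ h => if_pos h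
  have hRout : ∀ τ, τ ∉ S → Rf τ = W τ := fun τ h => if_neg h
  refine hsurg V T G Th (S : Set T) (fun v => Z.vn (pl v)) Rf ?_ ?_ ?_ ?_ K ?_
  · intro u u' h2 h3
    exact hone u u' (vn_hub.1 h2) (Z.vn_inj h3)
  · intro τ
    by_cases h : τ ∈ S
    · rw [hRin τ h]
      exact hfrom τ
    · rw [hRout τ h]
      exact hW1 τ
  · intro τ h
    rw [hRin τ (Finset.mem_coe.1 h)]
  · intro τ t ht h
    by_cases h' : τ ∈ S
    · rw [hRin τ h'] at ht h ⊢
      exact Or.inr (hhubs τ t ht h).1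
    · have h0 : τ ∉ S0 := fun h'' => h' (hS h'')
      have h0' : τ ∉ (S0 : Set T) := fun h'' => h0 (Finset.mem_coe.1 h'')
      rw [hRout τ h'] at ht h ⊢
      right
      have h2 := hW2 τ h0 t ht
      obtain ⟨a, ha, hae⟩ := h
      rw [← hae] at h2
      obtain ⟨s, hs, hse⟩ := vn_mem_oldS h2
      have h3 : s = zl τ := by
        by_contra h4
        exact hO.hub τ h0' s (by omega) (by rw [← hse]; exact ha)
      subst h3
      have h4 : (W τ).nd t = (W τ).nd (W τ).len := by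
        rw [← hae, hse, (hz τ h0).2.1]
        exact (hW1 τ).2.symm
      exact (W τ).inj _ _ ht le_rfl h4
  · refine hload Rf hRin ?_
    intro τ h' t ht hj
    have h0 : τ ∉ S0 := fun h'' => h' (hS h'')
    refine ⟨?_, hj⟩
    have e1 := hRout τ h'
    rw [e1] at ht ⊢
    exact hW2 τ h0 t ht


/-- **Closure and surgery with hubs.** `H` is a subgraph of `G` whose ring graph is 1-planar. Every thread of `G` has at
most one hub, at its end. The threads outside `S0` are short, lie in `H` and their ends are at their own places. The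
places of the ends of every thread are joined in the ring graph minus the hubs (to a door of the hub, for a thread which
ends at a hub) by a walk of cost at most `K1` times the length of the thread. Then `G` is `K`-planar. -/
theorem surg_hub_x (C K1 K : ℕ)
    (hKd : K = laK (5 * (C + 4) + 20) (K1 + 2 + 36 * (C + 4) + 120)) : ∀ (V T : Type) [Finite V] [Fintype T]
    (G H : SimpleGraph V) (U : Set V) (ord : V → V → ℕ) (Th : Threads G T)
    (pl : V → V ⊕ Dor H U) (r : ℕ) (S0 : Finset T),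
    KPl 1 (ringGraph H U ord) →
    (∀ a ∈ U, Set.InjOn (ord a) (H.neighborSet a)) →
    H ≤ G → (∀ u ∈ U, ∀ v ∈ U, ¬ H.Adj u v) → 1 ≤ r →
    (∀ v, v ∉ U → deg G v ≤ C * r) → S0.card ≤ C * r →
    (∀ τ, r ≤ Th.len τ) → (∀ τ, τ ∉ S0 → Th.len τ ≤ 2 * r) →
    (∀ τ t, t < Th.len τ → Th.x τ t ∉ U) →
    (∀ u ∈ U, pl u = Sum.inl u) → (∀ v, v ∉ U → ∀ a ∈ U, pl v ≠ Sum.inl a) →
    (∀ τ, τ ∉ S0 → (∀ t < Th.len τ, H.Adj (Th.x τ t) (Th.x τ (t + 1))) ∧
      pl (Th.x τ 0) = Sum.inl (Th.x τ 0) ∧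
      pl (Th.x τ (Th.len τ)) = Sum.inl (Th.x τ (Th.len τ))) →
    (∀ τ, ∃ w : V ⊕ Dor H U,
      (Th.x τ (Th.len τ) ∉ U → w = pl (Th.x τ (Th.len τ))) ∧
      (Th.x τ (Th.len τ) ∈ U → ∃ d : Dor H U, w = Sum.inr d ∧ d.1.2 = Th.x τ (Th.len τ)) ∧
      ∃ p : (ringGraph H U ord).Walk (pl (Th.x τ 0)) w, (∀ a ∈ U, Sum.inl a ∉ p.support) ∧
        2 * (p.support.map (deg (ringGraph H U ord))).sum + 8 * p.length ≤ K1 * Th.len τ) →
    KPl K G := by
  classical
  have hK := surg_gen_x (C + 4) (K1 + 2) K hKd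
  clear hKd
  intro V T _ _ G H U ord Th pl r S0 hR hinj hHG hUU hr hdeg hS0 hlen hlen2 hx hplU hplv hold hwalk
  have e1 : C * r ≤ (C + 4) * r := Nat.mul_le_mul_right _ (Nat.le_add_right _ _)
  have e2 : 4 ≤ (C + 4) * r := Nat.mul_le_mul (Nat.le_add_left 4 C) hr
  by_cases hne : (ringGraph H U ord).edgeSet.Nonempty
  · -- the main case
    have hex : ∀ τ, ∃ (z : ℕ → V ⊕ Dor H U) (zl : ℕ), τ ∉ S0 → OldSpec H U Th τ z zl := by
      intro τ
      by_cases h : τ ∈ S0
      · exact ⟨fun _ => Sum.inl (Th.x τ 0), 0, fun h' => absurd h h'⟩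
      · obtain ⟨z, zl, h1⟩ := exists_old (H := H) (U := U) Th τ (hold τ h).1
        exact ⟨z, zl, fun _ => h1⟩
    choose z zl hz using hex
    have hsys : OldSys (ringGraph H U ord) (Sum.inl '' U) (S0 : Set T) z zl :=
      old_sys hHG hinj Th (S0 : Set T) hx (fun τ h => (hold τ (fun h' => h (Finset.mem_coe.2 h'))).1)
        z zl (fun τ h => hz τ (fun h' => h (Finset.mem_coe.2 h')))
    refine hK V (V ⊕ Dor H U) T G (ringGraph H U ord) (Sum.inl '' U) Th pl z zl r S0 hR hne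
      ?_ ?_ hr (hS0.trans e1) hlen hlen2 ?_ hsys ?_ ?_
    · rintro x ⟨a, ha, rfl⟩ (v | d) h
      · exact absurd ha (show H.Adj a v ∧ a ∉ U ∧ v ∉ U from h).2.1
      · exact deg_dor hinj d
    · rintro (v | d) h
      · have hv : v ∉ U := fun hv => h ⟨v, hv, rfl⟩
        refine (deg_inl (H := H) (ord := ord) hv).trans ((deg_mono hHG v).trans ((hdeg v hv).trans ?_))
        exact Nat.mul_le_mul_right _ (by omega)
      · exact (deg_dor hinj d).trans e2
    · rintro u u' ⟨a, ha, h1⟩ h2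
      by_cases hu : u ∈ U
      · by_cases hu' : u' ∈ U
        · rw [hplU u hu, hplU u' hu'] at h2
          exact Sum.inl.inj h2
        · exact absurd (h2.symm.trans (hplU u hu)) (hplv u' hu' u hu)
      · exact absurd h1.symm (hplv u hu a ha)
    · intro τ h
      have h1 := hz τ h
      refine ⟨?_, ?_, h1.le.2⟩
      · rw [(hold τ h).2.1]
        exact h1.start 0 (Th.pos τ)
      · rw [(hold τ h).2.2]
        exact h1.last
    · intro τ
      obtain ⟨w, h1, h2, p, hp, hc⟩ := hwalk τ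
      refine ⟨w, ?_, p, ?_, hc.trans (Nat.mul_le_mul_right _ (by omega))⟩
      · by_cases h : Th.x τ (Th.len τ) ∈ U
        · obtain ⟨d, h3, h4⟩ := h2 h
          right
          rw [hplU _ h]
          refine ⟨⟨_, h, rfl⟩, ?_⟩
          rw [h3]
          exact Or.inr h4.symm
        · exact Or.inl (h1 h)
      · rintro x hx' ⟨a, ha, rfl⟩
        exact hp a ha hx'
  · -- no edges: all threads are in `S0`
    have hall : ∀ τ, τ ∈ S0 := by
      intro τ
      by_contra h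
      have h1 := (hold τ h).1 0 (Th.pos τ)
      have h0 := hx τ 0 (Th.pos τ)
      refine hne ?_
      by_cases h2 : Th.x τ (0 + 1) ∈ U
      · exact ⟨s(Sum.inl (Th.x τ 0), Sum.inr ⟨(Th.x τ 0, Th.x τ (0 + 1)), h1, h2⟩), Or.inl rfl⟩
      · exact ⟨s(Sum.inl (Th.x τ 0), Sum.inl (Th.x τ (0 + 1))), h1, h0, h2⟩
    refine hK V Bool T G ⊤ ∅ Th (fun _ => true) (fun _ _ => true) (fun _ => 0) r S0 kpl_two
      ⟨s(false, true), Bool.false_ne_true⟩ (fun _ h => absurd h (Set.notMem_empty _)) ?_ hr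
      (hS0.trans e1) hlen hlen2 (fun _ _ h => absurd h (Set.notMem_empty _))
      ⟨?_, ?_, ?_, ?_, ?_, ?_⟩ ?_ ?_
    · intro v _
      have h1 := deg_two v
      omega
    · exact fun τ h => absurd (Finset.mem_coe.2 (hall τ)) h
    · exact fun τ h => absurd (Finset.mem_coe.2 (hall τ)) h
    · exact fun τ h => absurd (Finset.mem_coe.2 (hall τ)) h
    · exact fun τ h => absurd (Finset.mem_coe.2 (hall τ)) h
    · exact fun τ h => absurd (Finset.mem_coe.2 (hall τ)) h
    · exact fun τ h => absurd (Finset.mem_coe.2 (hall τ)) h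
    · exact fun τ h => absurd (hall τ) h
    · intro τ
      refine ⟨true, Or.inl rfl, SimpleGraph.Walk.nil, fun _ _ h => Set.notMem_empty _ h, ?_⟩
      have h1 := deg_two true
      have h2 := Th.pos τ
      simp only [SimpleGraph.Walk.support_nil, List.map_cons, List.map_nil, List.sum_cons,
        List.sum_nil, SimpleGraph.Walk.length_nil]
      have h3 : 2 * 1 ≤ (K1 + 2) * Th.len τ := Nat.mul_le_mul (Nat.le_add_left 2 K1) h2
      omega


/-- a walk of the graph without hubs, turned into a walk with small degree sum -/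
private theorem cl_walk {V : Type} [Finite V] (G H : SimpleGraph V) (U : Set V) (ord : V → V → ℕ)
    (C r K1 len : ℕ) (hHG : H ≤ G) (hord : IsOrd H U ord) (hU : ∀ u ∈ U, ∀ v ∈ U, ¬ G.Adj u v)
    (hU3 : ∀ u ∈ U, 3 ≤ deg G u) (hr : 1 ≤ r) (hdeg : ∀ v, v ∉ U → deg G v ≤ C * r)
    (hsp : ∀ u v (p : G.Walk u v), p.IsPath → u ≠ v → 3 ≤ deg G u → 3 ≤ deg G v →
      (∀ x ∈ p.support, x ≠ u → x ≠ v → deg G x = 2) → r ≤ p.length)
    (hone : ∀ v, deg G v ≠ 1) (hlen : r ≤ len)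
    {s t : V ⊕ Dor H U} (p : (ringOut H U ord).Walk s t) (hp : p.length ≤ K1 * len)
    (hs : ∀ a ∈ U, s ≠ Sum.inl a) :
    ∃ q : (ringGraph H U ord).Walk s t, (∀ a ∈ U, Sum.inl a ∉ q.support) ∧
      2 * (q.support.map (deg (ringGraph H U ord))).sum + 8 * q.length ≤
        (2 * (C + 6) * (K1 + 1) + 8 * K1) * len := by
  classical
  refine ⟨p.bypass.mapLe (ringOut_le H U ord), ?_, ?_⟩
  · intro a ha hmem
    rw [SimpleGraph.Walk.support_mapLe_eq_support] at hmem
    have h2 : ∀ x ∈ p.support, x ≠ Sum.inl a := by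
      have key : ∀ (s t : V ⊕ Dor H U) (p : (ringOut H U ord).Walk s t), s ≠ Sum.inl a →
          ∀ x ∈ p.support, x ≠ Sum.inl a := by
        intro s t p
        induction p with
        | nil =>
          intro hs x hx
          simp only [SimpleGraph.Walk.support_nil, List.mem_singleton] at hx
          rw [hx]
          exact hs
        | cons h q ih =>
          intro hs x hx
          rw [SimpleGraph.Walk.support_cons, List.mem_cons] at hx
          rcases hx with hx | hx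
          · rw [hx]
            exact hs
          · exact ih (h.2.2 a ha) x hx
      exact key s t p (hs a ha)
    exact h2 _ (p.support_bypass_subset_support hmem) rfl
  · rw [SimpleGraph.Walk.support_mapLe_eq_support, SimpleGraph.Walk.length_map]
    have h1 := ring_sum G H U ord C r hHG hord hU hU3 hr hdeg hsp hone p.bypass
      p.bypass_isPath hs
    have h2 : p.bypass.length ≤ K1 * len := p.length_bypass_le_length.trans hp
    have h3 : (C + 6) * (p.bypass.length + r) ≤ (C + 6) * ((K1 + 1) * len) := by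
      apply Nat.mul_le_mul_left
      calc p.bypass.length + r ≤ K1 * len + len := Nat.add_le_add h2 hlen
        _ = (K1 + 1) * len := by ring
    calc 2 * (p.bypass.support.map (deg (ringGraph H U ord))).sum + 8 * p.bypass.length
        ≤ 2 * ((C + 6) * ((K1 + 1) * len)) + 8 * (K1 * len) := by omega
      _ = (2 * (C + 6) * (K1 + 1) + 8 * K1) * len := by ring

/-- **D4d** -/
theorem surg_close_hub_x (C K1 K : ℕ) (hKd : K = schK C K1) : ∀ (V T : Type) [Finite V] [Fintype T]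
    (G : SimpleGraph V) (U : Set V) (Th : Threads G T) (e : Sym2 V) (r : ℕ) (S0 : Finset T),
    KPl 1 (G.deleteEdges {e}) → 1 ≤ r →
    (∀ v, deg G v ≠ 1) → (∀ v, v ∉ U → deg G v ≤ C * r) → (∀ u ∈ U, 3 ≤ deg G u) →
    (∀ u v (p : G.Walk u v), p.IsPath → u ≠ v → 3 ≤ deg G u → 3 ≤ deg G v →
      (∀ x ∈ p.support, x ≠ u → x ≠ v → deg G x = 2) → r ≤ p.length) →
    S0.card ≤ C * r → (∀ τ, r ≤ Th.len τ) → (∀ τ, τ ∉ S0 → Th.len τ ≤ 2 * r) →
    (∀ τ t, t < Th.len τ → Th.x τ t ∉ U) →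
    (∀ τ, τ ∉ S0 → ∀ t < Th.len τ, s(Th.x τ t, Th.x τ (t + 1)) ≠ e) →
    (∀ ord : V → V → ℕ, IsOrd (G.deleteEdges {e}) U ord →
      ∃ pl : V → V ⊕ Dor (G.deleteEdges {e}) U,
        (∀ v, v ∉ U → ∀ a ∈ U, pl v ≠ Sum.inl a) ∧
        (∀ τ, τ ∉ S0 → pl (Th.x τ 0) = Sum.inl (Th.x τ 0) ∧
          (Th.x τ (Th.len τ) ∉ U → pl (Th.x τ (Th.len τ)) = Sum.inl (Th.x τ (Th.len τ)))) ∧
        (∀ τ, Th.x τ (Th.len τ) ∉ U →
          ∃ p : (ringOut (G.deleteEdges {e}) U ord).Walk (pl (Th.x τ 0)) (pl (Th.x τ (Th.len τ))),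
            p.length ≤ K1 * Th.len τ) ∧
        ∀ τ, Th.x τ (Th.len τ) ∈ U → ∃ d : Dor (G.deleteEdges {e}) U,
          d.1.2 = Th.x τ (Th.len τ) ∧
          ∃ p : (ringOut (G.deleteEdges {e}) U ord).Walk (pl (Th.x τ 0)) (Sum.inr d),
            p.length ≤ K1 * Th.len τ) →
    KPl K G := by
  classical
  have hK := surg_hub_x C (2 * (C + 6) * (K1 + 1) + 8 * K1) K hKd
  clear hKd
  intro V T _ _ G U Th e r S0 h1 hr hone hdeg hU3 hsp hS0 hlen hlen2 hx he hpl
  have hHG : G.deleteEdges {e} ≤ G := SimpleGraph.deleteEdges_le _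
  have hUG : ∀ u ∈ U, ∀ v ∈ U, ¬ G.Adj u v := by
    intro u hu v hv huv
    obtain ⟨τ, t, ht, h2⟩ := Th.cover u v huv
    have h3 := hx τ t ht
    have h4 : Th.x τ t ∈ s(u, v) := by
      rw [h2]
      exact Sym2.mem_mk_left _ _
    rcases Sym2.mem_iff.1 h4 with h5 | h5
    · exact h3 (h5 ▸ hu)
    · exact h3 (h5 ▸ hv)
  have hUH : ∀ u ∈ U, ∀ v ∈ U, ¬ (G.deleteEdges {e}).Adj u v :=
    fun u hu v hv h => hUG u hu v hv (hHG h)
  obtain ⟨ord, hord, hring⟩ := exists_ring (G.deleteEdges {e}) h1 U hUH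
  obtain ⟨pl, p1, p2, p3, p4⟩ := hpl ord hord
  have hx0 : ∀ τ, Th.x τ 0 ∉ U := fun τ => hx τ 0 (Th.pos τ)
  refine hK V T G (G.deleteEdges {e}) U ord Th (fun v => if v ∈ U then Sum.inl v else pl v) r S0
    hring (fun a ha => (hord a ha).injOn) hHG hUH hr hdeg hS0 hlen hlen2 hx ?_ ?_ ?_ ?_
  · intro u hu
    simp [hu]
  · intro v hv a ha
    simp only [hv, if_false]
    exact p1 v hv a ha
  · intro τ hτ
    refine ⟨fun t ht => ?_, ?_, ?_⟩
    · rw [SimpleGraph.deleteEdges_adj]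
      exact ⟨Th.adj τ t ht, he τ hτ t ht⟩
    · simp only [hx0 τ, if_false]
      exact (p2 τ hτ).1
    · by_cases h : Th.x τ (Th.len τ) ∈ U
      · simp [h]
      · simp only [h, if_false]
        exact (p2 τ hτ).2 h
  · intro τ
    rw [if_neg (hx0 τ)]
    by_cases h : Th.x τ (Th.len τ) ∈ U
    · obtain ⟨d, hd, p, hp⟩ := p4 τ h
      refine ⟨Sum.inr d, fun h' => absurd h h', fun _ => ⟨d, rfl, hd⟩, ?_⟩
      exact cl_walk G _ U ord C r K1 (Th.len τ) hHG hord hUG hU3 hr hdeg hsp hone (hlen τ) p hp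
        (p1 _ (hx0 τ))
    · obtain ⟨p, hp⟩ := p3 τ h
      refine ⟨pl (Th.x τ (Th.len τ)), fun _ => ?_, fun h' => absurd h' h, ?_⟩
      · simp [h]
      · exact cl_walk G _ U ord C r K1 (Th.len τ) hHG hord hUG hU3 hr hdeg hsp hone (hlen τ) p hp
          (p1 _ (hx0 τ))


end Pool.Agent.Helper71.PH
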