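import Pool.Agent.Helper71.PH.SCH

/-!
# PH: the polynomial form of `surg_close_hub` (MP_0dbcb7_co)
-/

set_option autoImplicit false

open Set
open Pool.Agent.Helper83.OP Pool.Agent.Helper83.LN Pool.Agent.Helper93.UP Pool.Agent.Helper83.HR
open Pool.Agent.Helper95.HH

namespace Pool.Agent.Helper71.PH

theorem kpl_le {V : Type} {k k' : ℕ} {G : SimpleGraph V} (h : k ≤ k') (hG : KPl k G) :
    KPl k' G := by
  obtain ⟨pos, γ, hd, h1⟩ := hG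
  exact ⟨pos, γ, hd, fun e he => (h1 e he).trans (by exact_mod_cast h)⟩

theorem clK_poly (C K1 : ℕ) : Pool.Agent.Helper71.PV.clK C (2 * K1) ≤ 98 * (C + K1 + 1) ^ 6 := by
  obtain ⟨M, hM⟩ : ∃ M, M = C + K1 + 1 := ⟨_, rfl⟩
  rw [← hM]
  have hM1 : 1 ≤ M := by omega
  unfold Pool.Agent.Helper71.PV.clK
  have h1 : 2 * K1 + 1 ≤ 2 * M := by omega
  have h2 : 2 * K1 + C ≤ 2 * M := by omega
  have h3 : 2 * K1 + 2 ≤ 2 * M := by omega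
  have h4 : 4 + C ≤ 4 * M := by omega
  have h5 : C ≤ M := by omega
  have e1 : (2 * K1 + 1) ^ 4 * (2 * K1 + C) ≤ (2 * M) ^ 4 * (2 * M) :=
    Nat.mul_le_mul (Nat.pow_le_pow_left h1 4) h2
  have e2 : (2 * K1 + 2) ^ 2 * ((2 * K1 + 1) ^ 2 * (4 + C) * C) ≤
      (2 * M) ^ 2 * ((2 * M) ^ 2 * (4 * M) * M) :=
    Nat.mul_le_mul (Nat.pow_le_pow_left h3 2)
      (Nat.mul_le_mul (Nat.mul_le_mul (Nat.pow_le_pow_left h1 2) h4) h5)
  have e3 : (2 * M) ^ 4 * (2 * M) = 32 * M ^ 5 := by ring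
  have e4 : (2 * M) ^ 2 * ((2 * M) ^ 2 * (4 * M) * M) = 64 * M ^ 6 := by ring
  have e5 : M ^ 5 ≤ M ^ 6 := Nat.pow_le_pow_right hM1 (by omega)
  have e6 : M ≤ M ^ 6 := by
    calc M = M ^ 1 := (pow_one M).symm
      _ ≤ M ^ 6 := Nat.pow_le_pow_right hM1 (by omega)
  have e7 : 1 ≤ M ^ 6 := Nat.one_le_pow _ _ hM1
  omega

theorem laK_poly (C K1 : ℕ) : laK C K1 ≤ 199 * (C + K1 + 1) ^ 7 := by
  have h := clK_poly C K1
  unfold laK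
  obtain ⟨M, hM⟩ : ∃ M, M = C + K1 + 1 := ⟨_, rfl⟩
  rw [← hM] at h ⊢
  have hM1 : 1 ≤ M := by omega
  have e1 : Pool.Agent.Helper71.PV.clK C (2 * K1) * (K1 + 1) ≤ 98 * M ^ 6 * M :=
    Nat.mul_le_mul h (by omega)
  have e2 : 98 * M ^ 6 * M = 98 * M ^ 7 := by ring
  have e3 : M ^ 6 ≤ M ^ 7 := Nat.pow_le_pow_right hM1 (by omega)
  have e4 : M ≤ M ^ 7 := by
    calc M = M ^ 1 := (pow_one M).symm
      _ ≤ M ^ 7 := Nat.pow_le_pow_right hM1 (by omega)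
  omega

theorem schK_poly (C K1 : ℕ) : schK C K1 ≤ 199 * 327 ^ 7 * (C + K1 + 1) ^ 14 := by
  unfold schK
  refine (laK_poly _ _).trans ?_
  obtain ⟨N, hN⟩ : ∃ N, N = C + K1 + 1 := ⟨_, rfl⟩
  rw [← hN]
  have hN1 : 1 ≤ N := by omega
  have e1 : 2 * (C + 6) * (K1 + 1) ≤ 2 * (6 * N) * N :=
    Nat.mul_le_mul (Nat.mul_le_mul_left _ (by omega)) (by omega)
  have e2 : N ≤ N ^ 2 := by
    calc N = N ^ 1 := (pow_one N).symm
      _ ≤ N ^ 2 := Nat.pow_le_pow_right hN1 (by omega)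
  have e3 : 2 * (6 * N) * N = 12 * N ^ 2 := by ring
  have e4 : 5 * (C + 4) + 20 + (2 * (C + 6) * (K1 + 1) + 8 * K1 + 2 + 36 * (C + 4) + 120) + 1 ≤
      327 * N ^ 2 := by omega
  calc 199 * (5 * (C + 4) + 20 + (2 * (C + 6) * (K1 + 1) + 8 * K1 + 2 + 36 * (C + 4) + 120) +
        1) ^ 7 ≤ 199 * (327 * N ^ 2) ^ 7 := Nat.mul_le_mul_left _ (Nat.pow_le_pow_left e4 7)
    _ = 199 * 327 ^ 7 * N ^ 14 := by ring

/-- the exponent and factor -/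
theorem schK_le : ∃ c : ℕ, ∀ C K1 : ℕ, schK C K1 ≤ c * (C + K1 + 1) ^ c := by
  refine ⟨199 * 327 ^ 7, fun C K1 => (schK_poly C K1).trans ?_⟩
  exact Nat.mul_le_mul_left _ (Nat.pow_le_pow_right (by omega) (by norm_num))

/-- polynomials of polynomials -/
theorem poly_comp (c a : ℕ) : ∃ c', ∀ n m : ℕ, m ≤ a * (n + 1) ^ a →
    c * (m + 1) ^ c ≤ c' * (n + 1) ^ c' := by
  refine ⟨c * (a + 1) ^ c + a * c, fun n m hm => ?_⟩
  have h1 : m + 1 ≤ (a + 1) * (n + 1) ^ a := by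
    have h2 : 1 ≤ (n + 1) ^ a := Nat.one_le_pow _ _ (by omega)
    have h3 : (a + 1) * (n + 1) ^ a = a * (n + 1) ^ a + (n + 1) ^ a := by ring
    omega
  calc c * (m + 1) ^ c ≤ c * ((a + 1) * (n + 1) ^ a) ^ c :=
        Nat.mul_le_mul_left _ (Nat.pow_le_pow_left h1 c)
    _ = c * (a + 1) ^ c * (n + 1) ^ (a * c) := by rw [mul_pow, ← pow_mul]; ring
    _ ≤ (c * (a + 1) ^ c + a * c) * (n + 1) ^ (c * (a + 1) ^ c + a * c) :=
        Nat.mul_le_mul (Nat.le_add_right _ _)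
          (Nat.pow_le_pow_right (by omega) (Nat.le_add_left _ _))

/-- **Closure and surgery with hubs**, polynomial constant -/
theorem surg_close_hub_p : ∃ c : ℕ, ∀ (C K1 : ℕ) (V T : Type) [Finite V] [Fintype T]
    (G : SimpleGraph V) (U : Set V) (Th : Threads G T) (e : Sym2 V) (r : ℕ) (S0 : Finset T),
    KPl 1 (G.deleteEdges {e}) → 1 ≤ r →
    (∀ v, deg G v ≠ 1) → (∀ v, v ∉ U → deg G v ≤ C * r) → (∀ u ∈ U, 3 ≤ deg G u) →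
    (∀ u v (p : G.Walk u v), p.IsPath → u ≠ v → 3 ≤ deg G u → 3 ≤ deg G v →
      (∀ x ∈ p.support, x ≠ u → x ≠ v → deg G x = 2) → r ≤ p.length) →
    S0.card ≤ C * r → (∀ τ, r ≤ Th.len τ) → (∀ τ, τ ∉ S0 → Th.len τ ≤ 2 * r) →
    (∀ τ t, t < Th.len τ → Th.x τ t ∉ U) →
    (∀ τ, τ ∉ S0 → ∀ t < Th.len τ, s(Th.x τ t, Th.x τ (t + 1)) ≠ e) →
    (∀ ord : V → V → ℕ, IsOrd (G.deleteEdges {e}) U ord →
      ∃ pl : V → V ⊕ Dor (G.deleteEdges {e}) U,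
        (∀ v, v ∉ U → ∀ a ∈ U, pl v ≠ Sum.inl a) ∧
        (∀ τ, τ ∉ S0 → pl (Th.x τ 0) = Sum.inl (Th.x τ 0) ∧
          (Th.x τ (Th.len τ) ∉ U → pl (Th.x τ (Th.len τ)) = Sum.inl (Th.x τ (Th.len τ)))) ∧
        (∀ τ, Th.x τ (Th.len τ) ∉ U →
          ∃ p : (ringOut (G.deleteEdges {e}) U ord).Walk (pl (Th.x τ 0)) (pl (Th.x τ (Th.len τ))),
            p.length ≤ K1 * Th.len τ) ∧
        ∀ τ, Th.x τ (Th.len τ) ∈ U → ∃ d : Dor (G.deleteEdges {e}) U,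
          d.1.2 = Th.x τ (Th.len τ) ∧
          ∃ p : (ringOut (G.deleteEdges {e}) U ord).Walk (pl (Th.x τ 0)) (Sum.inr d),
            p.length ≤ K1 * Th.len τ) →
    KPl (c * (C + K1 + 1) ^ c) G := by
  obtain ⟨c, hc⟩ := schK_le
  refine ⟨c, ?_⟩
  intro C K1 V T _ _ G U Th e r S0 h1 hr hone hdeg hU3 hsp hS0 hlen hlen2 hx he hpl
  exact kpl_le (hc C K1) (surg_close_hub_x C K1 _ rfl V T G U Th e r S0 h1 hr hone hdeg hU3 hsp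
    hS0 hlen hlen2 hx he hpl)

end Pool.Agent.Helper71.PH
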